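import Mathlib

namespace Pool.Agent.Results.MP_aedd95_co.Upper

open Finset

/-- An affine hyperplane of `ℝ^d`: the solution set of one nontrivial linear equation. -/
def IsHyp {d : ℕ} (H : Set (Fin d → ℝ)) : Prop :=
  ∃ (a : Fin d → ℝ) (b : ℝ), a ≠ 0 ∧ H = {x | ∑ i, a i * x i = b}

open Classical in
/-- `M` is a `k`-cover of the triangular grid `T_d(n)`. -/
def IsCover (n d k : ℕ) (M : Multiset (Set (Fin d → ℝ))) : Prop :=
  (∀ H ∈ M, IsHyp H) ∧
    ∀ x : Fin d → ℕ, ∑ i, x i ≤ n - 1 → k ≤ M.countP (fun H => (fun i => (x i : ℝ)) ∈ H)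

/-- face-parallel hyperplanes -/
def hyp (n d : ℕ) : Option (Fin d) → ℕ → Set (Fin d → ℝ)
  | none, j => {x | ∑ i, x i = ((n - 1 : ℕ) : ℝ) - j}
  | some i, j => {x | x i = j}

noncomputable def w (n d k j : ℕ) : ℕ := ⌈(k : ℝ) / n * (2 * n / (d + 1) - j)⌉₊

noncomputable def cov (n d k : ℕ) : Multiset (Set (Fin d → ℝ)) :=
  ∑ i : Option (Fin d), ∑ j ∈ range n, Multiset.replicate (w n d k j) (hyp n d i j)

theorem hyp_isHyp (n d : ℕ) (hd : 1 ≤ d) (i : Option (Fin d)) (j : ℕ) : IsHyp (hyp n d i j) := by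
  cases i with
  | none =>
    refine ⟨fun _ => 1, ((n - 1 : ℕ) : ℝ) - j, ?_, ?_⟩
    · intro h
      have := congrFun h ⟨0, hd⟩
      simp at this
    · simp [hyp]
  | some i =>
    refine ⟨Pi.single i 1, j, ?_, ?_⟩
    · intro h
      have := congrFun h i
      simp at this
    · ext x
      simp [hyp, Pi.single_apply]

theorem cov_isCover (n d k : ℕ) (hd : 1 ≤ d) (hn : 1 ≤ n) : IsCover n d k (cov n d k) := by
  classical
  refine ⟨?_, ?_⟩
  · intro H hH
    simp only [cov, Multiset.mem_sum] at hH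
    obtain ⟨i, -, j, -, h⟩ := hH
    rw [Multiset.eq_of_mem_replicate h]
    exact hyp_isHyp n d hd i j
  · intro x hx
    let y : Option (Fin d) → ℕ := fun i => i.elim (n - 1 - ∑ i, x i) x
    have hy : ∀ i, y i < n := by
      intro i
      cases i with
      | none => simp only [y, Option.elim]; omega
      | some i =>
        have : x i ≤ ∑ i, x i := single_le_sum (fun _ _ => Nat.zero_le _) (mem_univ i)
        simp only [y, Option.elim]; omega
    have hmem : ∀ i, (fun i => (x i : ℝ)) ∈ hyp n d i (y i) := by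
      intro i
      cases i with
      | none =>
        simp only [y, Option.elim, hyp, Set.mem_ofPred_eq]
        rw [Nat.cast_sub hx]
        push_cast
        ring
      | some i => simp [y, hyp]
    have hsum : ∑ i, y i = n - 1 := by
      rw [Fintype.sum_option]
      simp only [y, Option.elim]
      omega
    have h1 : ∀ (p : Set (Fin d → ℝ) → Prop) [DecidablePred p], (∀ i, p (hyp n d i (y i))) →
        ∑ i, w n d k (y i) ≤ (cov n d k).countP p := by
      intro p _ hp
      have e : (cov n d k).countP p = ∑ i : Option (Fin d), ∑ j ∈ range n,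
          (Multiset.replicate (w n d k j) (hyp n d i j)).countP p := by
        simp only [cov, ← Multiset.coe_countPAddMonoidHom, map_sum]
      rw [e]
      refine sum_le_sum fun i _ => ?_
      refine le_trans ?_ (single_le_sum (f := fun j =>
        (Multiset.replicate (w n d k j) (hyp n d i j)).countP p)
        (fun _ _ => Nat.zero_le _) (mem_range.2 (hy i)))
      have : (Multiset.replicate (w n d k (y i)) (hyp n d i (y i))).countP p =
          Multiset.card (Multiset.replicate (w n d k (y i)) (hyp n d i (y i))) := by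
        rw [Multiset.countP_eq_card]
        intro a ha
        rw [Multiset.eq_of_mem_replicate ha]
        exact hp i
      simp only [this, Multiset.card_replicate, le_refl]
    refine le_trans ?_ (h1 _ hmem)
    have hn' : (0 : ℝ) < n := by exact_mod_cast hn
    have hd' : (0 : ℝ) < (d : ℝ) + 1 := by positivity
    have h2 : (k : ℝ) ≤ ∑ i, (w n d k (y i) : ℝ) := by
      refine le_trans ?_ (sum_le_sum fun i _ => Nat.le_ceil _)
      rw [← mul_sum, sum_sub_distrib, ← Nat.cast_sum, hsum, Nat.cast_sub hn]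
      simp only [sum_const, card_univ, Fintype.card_option, Fintype.card_fin, nsmul_eq_mul]
      push_cast
      have e : (k : ℝ) / n * (((d : ℝ) + 1) * (2 * n / (d + 1)) - (n - 1)) = k + k / n := by
        field_simp
        ring
      rw [e]
      have : (0 : ℝ) ≤ k / n := by positivity
      linarith
    exact_mod_cast h2

theorem ceil_le_tel (c t : ℝ) (hc : 0 ≤ c) :
    (⌈c * t⌉₊ : ℝ) ≤ (c * (max 0 (t + 1)) ^ 2 / 2 + max 0 (t + 1)) -
      (c * (max 0 t) ^ 2 / 2 + max 0 t) := by
  rcases le_or_gt t 0 with h | h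
  · have : ⌈c * t⌉₊ = 0 := Nat.ceil_eq_zero.2 (mul_nonpos_of_nonneg_of_nonpos hc h)
    rw [this, max_eq_left h]
    have h0 : 0 ≤ max 0 (t + 1) := le_max_left _ _
    have : 0 ≤ c * (max 0 (t + 1)) ^ 2 / 2 := by positivity
    simp only [Nat.cast_zero]
    nlinarith
  · have h1 := (Nat.ceil_lt_add_one (mul_nonneg hc h.le)).le
    rw [max_eq_right h.le, max_eq_right (by linarith : (0 : ℝ) ≤ t + 1)]
    nlinarith

theorem sum_tel (c m : ℝ) (hc : 0 ≤ c) (hm : 0 ≤ m) (N : ℕ) :
    ∑ j ∈ range N, (⌈c * (m - j)⌉₊ : ℝ) ≤ c * (m + 1) ^ 2 / 2 + (m + 1) := by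
  have key : ∀ N : ℕ, ∑ j ∈ range N, (⌈c * (m - j)⌉₊ : ℝ) ≤ c * (m + 1) ^ 2 / 2 + (m + 1) -
      (c * (max 0 (m - N + 1)) ^ 2 / 2 + max 0 (m - N + 1)) := by
    intro N
    induction N with
    | zero =>
      have : max 0 (m + 1) = m + 1 := max_eq_right (by linarith)
      simp [this]
    | succ N ih =>
      rw [sum_range_succ]
      have := ceil_le_tel c (m - N) hc
      have e : m - ((N + 1 : ℕ) : ℝ) + 1 = m - N := by push_cast; ring
      rw [e]
      linarith
  have h0 : 0 ≤ max 0 (m - N + 1) := le_max_left _ _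
  have h1 : 0 ≤ c * (max 0 (m - N + 1)) ^ 2 / 2 := by positivity
  have := key N
  linarith

theorem card_cov (n d k : ℕ) (hn : 1 ≤ n) :
    (Multiset.card (cov n d k) : ℝ) ≤
      (2 * k / (d + 1) + 2) * n + (2 * k + k * (d + 1) / 2 + (d + 1)) := by
  have hn' : (0 : ℝ) < n := by exact_mod_cast hn
  have hn1 : (1 : ℝ) ≤ n := by exact_mod_cast hn
  have hd' : (0 : ℝ) < (d : ℝ) + 1 := by positivity
  have e : Multiset.card (cov n d k) = (d + 1) * ∑ j ∈ range n, w n d k j := by
    simp [cov, Multiset.card_sum]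
    ring
  rw [e]
  push_cast
  have h := sum_tel ((k : ℝ) / n) (2 * n / (d + 1)) (by positivity) (by positivity) n
  have h2 := mul_le_mul_of_nonneg_left h hd'.le
  refine le_trans h2 ?_
  have e2 : ((d : ℝ) + 1) * ((k : ℝ) / n * (2 * n / (d + 1) + 1) ^ 2 / 2 + (2 * n / (d + 1) + 1)) =
      (2 * k / (d + 1) + 2) * n + (2 * k + k * (d + 1) / 2 / n + (d + 1)) := by
    field_simp
    ring
  rw [e2]
  have : (k : ℝ) * (d + 1) / 2 / n ≤ k * (d + 1) / 2 := div_le_self (by positivity) hn1
  linarith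

theorem result (n d k : ℕ) (hd : 1 ≤ d) (hn : 1 ≤ n) :
    ∃ M, IsCover n d k M ∧ (Multiset.card M : ℝ) ≤
      (2 * k / (d + 1) + 2) * n + (2 * k + k * (d + 1) / 2 + (d + 1)) :=
  ⟨cov n d k, cov_isCover n d k hd hn, card_cov n d k hn⟩

end Pool.Agent.Results.MP_aedd95_co.Upper
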